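import Pool.Agent.helper56.LVS.Main

/-!
# Large values of short Dirichlet polynomials: from gaps `T ^ δ` to gaps `1`
-/

set_option autoImplicit false

namespace Pool.Agent.LVS

open Pool.Agent.NF Pool.Agent.ZD Pool.Agent.DH

theorem LVS_shift (n : ℕ) (hn : 0 < n) (t y : ℝ) :
    (n : ℂ) ^ (-((y : ℂ) * Complex.I)) * (n : ℂ) ^ (-(((t - y : ℝ) : ℂ) * Complex.I)) =
      (n : ℂ) ^ (-((t : ℂ) * Complex.I)) := by
  rw [← Complex.cpow_add _ _ (by exact_mod_cast hn.ne')]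
  congr 1
  push_cast
  ring

theorem LVS_norm (n : ℕ) (hn : 0 < n) (y : ℝ) :
    ‖(n : ℂ) ^ (-((y : ℂ) * Complex.I))‖ = 1 := by
  rw [← Complex.ofReal_natCast, Complex.norm_cpow_eq_rpow_re_of_pos (by exact_mod_cast hn)]
  simp

/-- The number of points of a separated set. -/
theorem LVS_card (T : ℝ) (T₀ : ℝ) (W : Finset ℝ) (hT : 1 ≤ T)
    (hW : ∀ t ∈ W, T₀ ≤ t ∧ t ≤ T₀ + T) (hsep : ∀ t ∈ W, ∀ s ∈ W, t ≠ s → 1 ≤ |t - s|) :
    (W.card : ℝ) ≤ T + 1 := by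
  have h1 : W.card ≤ (Finset.range (⌊T⌋₊ + 1)).card := by
    refine Finset.card_le_card_of_injOn (fun t => ⌊t - T₀⌋₊) ?_ ?_
    · intro t ht
      rw [Finset.coe_range, Set.mem_Iio]
      have h2 := hW t ht
      have h3 : ⌊t - T₀⌋₊ ≤ ⌊T⌋₊ := Nat.floor_mono (by linarith)
      show ⌊t - T₀⌋₊ < ⌊T⌋₊ + 1
      omega
    · intro t ht s hs hts
      by_contra hne
      have h2 := hsep t ht s hs hne
      have h3 := hW t ht
      have h4 := hW s hs
      have h5 : ⌊t - T₀⌋₊ = ⌊s - T₀⌋₊ := hts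
      have h6 := Nat.floor_le (a := t - T₀) (by linarith)
      have h7 := Nat.floor_le (a := s - T₀) (by linarith)
      have h8 := Nat.lt_floor_add_one (t - T₀)
      have h9 := Nat.lt_floor_add_one (s - T₀)
      rw [h5] at h6 h8
      have h10 : |t - s| < 1 := by
        rw [abs_lt]
        constructor <;> linarith
      linarith
  rw [Finset.card_range] at h1
  have h2 : ((W.card : ℕ) : ℝ) ≤ ((⌊T⌋₊ + 1 : ℕ) : ℝ) := by exact_mod_cast h1
  push_cast at h2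
  have h3 := Nat.floor_le (a := T) (by linarith)
  linarith

/-- The bound is at least `1` if there is a large value. -/
theorem LVS_one_le (T N G V : ℝ) (hT : 1 ≤ T) (hN : 1 ≤ N) (hNT : N ≤ T ^ (1 / 2 : ℝ)) (hG : 0 ≤ G)
    (hV : 0 < V) (h : V ^ 2 ≤ N * G) : 1 ≤ LVSB T N G V := by
  have hT0 : 0 ≤ T := by linarith
  have h1 : 0 ≤ T ^ (3 / 4 : ℝ) := Real.rpow_nonneg hT0 _
  have h3 : 0 ≤ G ^ (5 / 2 : ℝ) := Real.rpow_nonneg hG _
  have h4 : 0 ≤ N ^ (3 / 2 : ℝ) := Real.rpow_nonneg (by linarith) _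
  have h5 : 1 ≤ T ^ (1 / 2 : ℝ) * G ^ 2 * N / V ^ 4 := by
    rw [one_le_div₀ (by positivity)]
    calc V ^ 4 = (V ^ 2) ^ 2 := by ring
      _ ≤ (N * G) ^ 2 := pow_le_pow_left₀ (by positivity) h 2
      _ = N * (G ^ 2 * N) := by ring
      _ ≤ T ^ (1 / 2 : ℝ) * (G ^ 2 * N) := by
          refine mul_le_mul_of_nonneg_right hNT ?_
          have : 0 ≤ N := by linarith
          positivity
      _ = T ^ (1 / 2 : ℝ) * G ^ 2 * N := by ring
  unfold LVSB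
  have h6 : 0 ≤ T ^ (3 / 4 : ℝ) * G ^ (5 / 2 : ℝ) * N ^ (3 / 2 : ℝ) / V ^ 6 := by positivity
  have h7 : 0 ≤ T * G ^ (5 / 2 : ℝ) * N ^ (3 / 2 : ℝ) / V ^ 7 := by positivity
  linarith

theorem LVS_cauchy (N : ℕ) (a : ℕ → ℂ) (t : ℝ) :
    ‖DP N a t‖ ^ 2 ≤ N * ∑ n ∈ Finset.Ioc N (2 * N), ‖a n‖ ^ 2 := by
  have h1 : ‖DP N a t‖ ≤ ∑ n ∈ Finset.Ioc N (2 * N), ‖a n‖ := by
    unfold DP
    refine (norm_sum_le _ _).trans (le_of_eq (Finset.sum_congr rfl fun n hn => ?_))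
    rw [norm_mul, LVS_norm n (by have := (Finset.mem_Ioc.1 hn).1; omega), mul_one]
  have h2 : (∑ n ∈ Finset.Ioc N (2 * N), ‖a n‖) ^ 2 ≤
      ((Finset.Ioc N (2 * N)).card : ℝ) * ∑ n ∈ Finset.Ioc N (2 * N), ‖a n‖ ^ 2 :=
    sq_sum_le_card_mul_sum_sq
  have h3 : (Finset.Ioc N (2 * N)).card = N := by
    rw [Nat.card_Ioc]
    omega
  rw [h3] at h2
  exact (pow_le_pow_left₀ (norm_nonneg _) h1 2).trans h2

/-- The thinning: a `1`-separated subset of `[T, 2T]` is the union of few `T ^ δ`-separated sets. -/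
theorem LVS_thin (δ T B : ℝ) (W : Finset ℝ) (hδ : 0 < δ) (hT : 1 ≤ T)
    (hW : ∀ t ∈ W, T ≤ t ∧ t ≤ 2 * T) (hsep : ∀ t ∈ W, ∀ s ∈ W, t ≠ s → 1 ≤ |t - s|)
    (hB : 0 ≤ B) (h : ∀ W' : Finset ℝ, W' ⊆ W → Sep δ T W' → (W'.card : ℝ) ≤ B) :
    (W.card : ℝ) ≤ 3 * T ^ δ * B := by
  have hTd : 1 ≤ T ^ δ := Real.one_le_rpow hT hδ.le
  set K : ℕ := ⌈T ^ δ⌉₊ + 1 with hK
  have hK0 : 0 < K := by omega
  have hK1 : T ^ δ ≤ (K : ℝ) - 1 := by
    have := Nat.le_ceil (T ^ δ)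
    rw [hK]
    push_cast
    linarith
  have hK2 : (K : ℝ) ≤ 3 * T ^ δ := by
    have := Nat.ceil_lt_add_one (a := T ^ δ) (by linarith)
    rw [hK]
    push_cast
    linarith
  have hmaps : ∀ t ∈ W, ⌊t⌋₊ % K ∈ Finset.range K := by
    intro t _
    rw [Finset.mem_range]
    exact Nat.mod_lt _ hK0
  have h1 := Finset.card_eq_sum_card_fiberwise hmaps
  have h2 : ∀ r ∈ Finset.range K, ((W.filter (fun t => ⌊t⌋₊ % K = r)).card : ℝ) ≤ B := by
    intro r _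
    refine h _ (Finset.filter_subset _ _) ⟨fun t ht => hW t (Finset.mem_filter.1 ht).1, ?_⟩
    intro t ht s hs hts
    rw [Finset.mem_filter] at ht hs
    have h3 := hsep t ht.1 s hs.1 hts
    have h4 := hW t ht.1
    have h5 := hW s hs.1
    have key : ∀ x y : ℝ, x ∈ W → y ∈ W → ⌊x⌋₊ % K = r → ⌊y⌋₊ % K = r → x < y → 1 ≤ |x - y| →
        T ^ δ ≤ |x - y| := by
      intro x y hx hy hxr hyr hxy hge
      have h6 := hW x hx
      have h7 := hW y hy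
      have f1 := Nat.floor_le (a := x) (by linarith)
      have f2 := Nat.floor_le (a := y) (by linarith)
      have f3 := Nat.lt_floor_add_one x
      have f4 := Nat.lt_floor_add_one y
      rw [abs_sub_comm, abs_of_pos (by linarith)] at hge ⊢
      have h8 : ⌊x⌋₊ < ⌊y⌋₊ := by
        have h9 : ((⌊x⌋₊ : ℕ) : ℝ) < ((⌊y⌋₊ : ℕ) : ℝ) := by linarith
        exact_mod_cast h9
      have h10 : ⌊x⌋₊ + K ≤ ⌊y⌋₊ := by
        have h11 : ⌊x⌋₊ ≡ ⌊y⌋₊ [MOD K] := by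
          unfold Nat.ModEq
          rw [hxr, hyr]
        have h12 := (Nat.modEq_iff_dvd' h8.le).1 h11
        have h13 := Nat.le_of_dvd (by omega) h12
        omega
      have h14 : ((⌊x⌋₊ : ℕ) : ℝ) + (K : ℝ) ≤ ((⌊y⌋₊ : ℕ) : ℝ) := by exact_mod_cast h10
      linarith
    rcases lt_or_gt_of_ne hts with h6 | h6
    · exact key t s ht.1 hs.1 ht.2 hs.2 h6 h3
    · rw [abs_sub_comm] at h3 ⊢
      exact key s t hs.1 ht.1 hs.2 ht.2 h6 h3
  calc (W.card : ℝ) = ∑ r ∈ Finset.range K, ((W.filter (fun t => ⌊t⌋₊ % K = r)).card : ℝ) := by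
        rw [h1]
        push_cast
        rfl
    _ ≤ ∑ _r ∈ Finset.range K, B := Finset.sum_le_sum h2
    _ = K * B := by rw [Finset.sum_const, Finset.card_range, nsmul_eq_mul]
    _ ≤ 3 * T ^ δ * B := mul_le_mul_of_nonneg_right hK2 hB

theorem LVS_final (ε : ℝ) (hε : 0 < ε) : ∃ C : ℝ, 0 < C ∧
    ∀ (T T₀ : ℝ) (N : ℕ) (a : ℕ → ℂ) (V G : ℝ) (W : Finset ℝ), 1 ≤ T → 1 ≤ N → (N : ℝ) ^ 2 ≤ T → 0 < V →
    (∀ n ∈ Finset.Ioc N (2 * N), ‖a n‖ ≤ 1) → G = ∑ n ∈ Finset.Ioc N (2 * N), ‖a n‖ ^ 2 →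
    (∀ t ∈ W, T₀ ≤ t ∧ t ≤ T₀ + T) → (∀ t ∈ W, ∀ s ∈ W, t ≠ s → 1 ≤ |t - s|) →
    (∀ t ∈ W, V ≤ ‖DP N a t‖) → (W.card : ℝ) ≤ C * T ^ ε * LVSB T N G V := by
  obtain ⟨δ₀, hδ₀, hS⟩ := LVS_sep (ε / 2) (by linarith)
  obtain ⟨δ, hδ, hδ1, hδ2⟩ : ∃ δ : ℝ, 0 < δ ∧ δ ≤ δ₀ ∧ δ ≤ ε / 2 :=
    ⟨min δ₀ (ε / 2), lt_min hδ₀ (by linarith), min_le_left _ _, min_le_right _ _⟩
  obtain ⟨C₁, T₁, hC₁, hC⟩ := hS δ hδ hδ1
  refine ⟨3 * C₁ + (|T₁| + 1), by positivity, ?_⟩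
  intro T T₀ N a V G W hT hN hNT hV ha hG hW hsep hval
  have hT0 : 0 < T := by linarith
  have hN1 : (1 : ℝ) ≤ N := by exact_mod_cast hN
  have hNT' : (N : ℝ) ≤ T ^ (1 / 2 : ℝ) := by
    have h1 : ((N : ℝ) ^ 2) ^ (1 / 2 : ℝ) ≤ T ^ (1 / 2 : ℝ) :=
      Real.rpow_le_rpow (by positivity) hNT (by norm_num)
    rwa [← Real.rpow_natCast, ← Real.rpow_mul (by linarith),
      show ((2 : ℕ) : ℝ) * (1 / 2) = 1 by norm_num, Real.rpow_one] at h1
  have hG0 : 0 ≤ G := by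
    rw [hG]
    exact Finset.sum_nonneg fun n _ => by positivity
  have hB0 := LVSB_nonneg T N G V hT0.le (by linarith) hG0 hV
  have hTe : 1 ≤ T ^ ε := Real.one_le_rpow hT hε.le
  by_cases hcase : T₁ ≤ T
  · -- the main case
    have hinj : Function.Injective (fun t : ℝ => t - (T₀ - T)) := fun x y h => by
      have h' : x - (T₀ - T) = y - (T₀ - T) := h
      linarith
    set W' : Finset ℝ := W.image (fun t => t - (T₀ - T)) with hW'
    set b : ℕ → ℂ := fun n => a n * (n : ℂ) ^ (-(((T₀ - T : ℝ) : ℂ) * Complex.I)) with hb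
    have hbn : ∀ n ∈ Finset.Ioc N (2 * N), ‖b n‖ = ‖a n‖ := by
      intro n hn
      rw [hb]
      simp only
      rw [norm_mul, LVS_norm n (by have := (Finset.mem_Ioc.1 hn).1; omega), mul_one]
    have hDP : ∀ t : ℝ, DP N b (t - (T₀ - T)) = DP N a t := by
      intro t
      unfold DP
      refine Finset.sum_congr rfl fun n hn => ?_
      have hn0 : 0 < n := by have := (Finset.mem_Ioc.1 hn).1; omega
      rw [hb]
      simp only
      rw [mul_assoc, LVS_shift n hn0]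
    have hbG : G = ∑ n ∈ Finset.Ioc N (2 * N), ‖b n‖ ^ 2 := by
      rw [hG]
      exact Finset.sum_congr rfl fun n hn => by rw [hbn n hn]
    have hcard : W'.card = W.card := Finset.card_image_of_injective _ hinj
    have hmain : (W'.card : ℝ) ≤ 3 * T ^ δ * (C₁ * T ^ (ε / 2) * LVSB T N G V) := by
      refine LVS_thin δ T _ W' hδ hT ?_ ?_ (by positivity) ?_
      · intro t ht
        obtain ⟨s, hs, rfl⟩ := Finset.mem_image.1 ht
        have := hW s hs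
        constructor <;> linarith [this.1, this.2]
      · intro t ht s hs hts
        obtain ⟨t', ht', rfl⟩ := Finset.mem_image.1 ht
        obtain ⟨s', hs', rfl⟩ := Finset.mem_image.1 hs
        have h3 : t' - (T₀ - T) - (s' - (T₀ - T)) = t' - s' := by ring
        rw [h3]
        exact hsep t' ht' s' hs' fun h => hts (by rw [h])
      · intro W'' hsub hsep''
        refine hC T hcase W'' hsep'' N b V G hN hNT' hV ?_ hbG ?_
        · intro n hn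
          rw [hbn n hn]
          exact ha n hn
        · intro t ht
          obtain ⟨s, hs, rfl⟩ := Finset.mem_image.1 (hsub ht)
          rw [hDP]
          exact hval s hs
    rw [hcard] at hmain
    refine hmain.trans ?_
    have h5 : T ^ δ * T ^ (ε / 2) ≤ T ^ ε := by
      rw [← Real.rpow_add hT0]
      exact Real.rpow_le_rpow_of_exponent_le hT (by linarith)
    calc 3 * T ^ δ * (C₁ * T ^ (ε / 2) * LVSB T N G V)
        = 3 * C₁ * (T ^ δ * T ^ (ε / 2)) * LVSB T N G V := by ring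
      _ ≤ 3 * C₁ * T ^ ε * LVSB T N G V := by gcongr
      _ ≤ (3 * C₁ + (|T₁| + 1)) * T ^ ε * LVSB T N G V := by
          gcongr
          have : 0 ≤ |T₁| := abs_nonneg _
          linarith
  · -- small T
    rw [not_le] at hcase
    rcases W.eq_empty_or_nonempty with h0 | ⟨t, ht⟩
    · rw [h0, Finset.card_empty, Nat.cast_zero]
      positivity
    have h1 := LVS_card T T₀ W hT hW hsep
    have h2 : V ^ 2 ≤ N * G := by
      rw [hG]
      exact (pow_le_pow_left₀ hV.le (hval t ht) 2).trans (LVS_cauchy N a t)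
    have h3 := LVS_one_le T N G V hT hN1 hNT' hG0 hV h2
    have h4 : T ≤ |T₁| := hcase.le.trans (le_abs_self _)
    calc (W.card : ℝ) ≤ T + 1 := h1
      _ ≤ (3 * C₁ + (|T₁| + 1)) := by linarith
      _ = (3 * C₁ + (|T₁| + 1)) * 1 * 1 := by ring
      _ ≤ (3 * C₁ + (|T₁| + 1)) * T ^ ε * LVSB T N G V := by
          gcongr

end Pool.Agent.LVS
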