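import Pool.Agent.helper4.NF.All

/-!
# Large values of short Dirichlet polynomials: the general inequality with square norms

The lower bound of project nf (MP_4467b5_nt) with `∑ |b n| ^ 2` instead of the number of the
coefficients; adapted from the modules LB1, LB2, LBD, GLV of that project.
-/

set_option autoImplicit false

open Complex MeasureTheory

namespace Pool.Agent.NF

open Pool.Agent.helper84.DM Pool.Agent.helper78.ED Pool.Agent.DH Pool.Agent.ZD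

/-- The lower bound, first part, with the square norms of the coefficients. -/
theorem LVS_LB1 (hE : EXA_stmt) (hB : BPH_stmt) (W : Finset ℝ) (NP NE L : ℕ) (bP bE : ℕ → ℂ) (D : ℝ)
    (hNP : 1 ≤ NP) (hNE : 1 ≤ NE) (hL : 1 ≤ L)
    (hD : ∀ k : ℕ, 1 ≤ k → k ≤ 32 * (NP * NE * L) → d k ≤ D) (l : ℕ) (hl : l ∈ Finset.Ioc L (2 * L)) :
    (∑ t ∈ W, ‖PP NP bP t * PP NE bE t‖ ^ 2) ^ 2 ≤
      ((∑ n ∈ Finset.Ioc NP (4 * NP), ‖bP n‖ ^ 2) * ∑ n ∈ Finset.Ioc NE (4 * NE), ‖bE n‖ ^ 2) * D *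
    (mu (NP * NE * L) * ∑ t ∈ W, ‖PP NP bP t * PP NE bE t‖ ^ 2 +
      ‖∑ τ ∈ W, (starRingEnd ℂ) (PP NP bP τ * PP NE bE τ * ex (-(τ * Real.log l))) *
        ∑ t ∈ W, if t = τ then 0 else BX (NP * NE * L) (τ - t) *
          (PP NP bP t * PP NE bE t * ex (-(t * Real.log l)))‖) := by
  have hE' := hE
  obtain ⟨e1, e2, e3, e4, e5, e6, e7, e8, e9⟩ := hE'
  have hl' := Finset.mem_Ioc.1 hl
  set G : ℝ := ∑ t ∈ W, ‖PP NP bP t * PP NE bE t‖ ^ 2 with hG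
  set v : ℝ → ℂ := fun t => PP NP bP t * PP NE bE t * ex (-(t * Real.log l)) with hv
  set X : ℝ := (NP : ℝ) * NE * L with hX
  have hNP1 : (1 : ℝ) ≤ NP := by exact_mod_cast hNP
  have hNE1 : (1 : ℝ) ≤ NE := by exact_mod_cast hNE
  have hL1 : (1 : ℝ) ≤ L := by exact_mod_cast hL
  have hX1 : 1 ≤ X := by
    rw [hX]
    exact one_le_mul_of_one_le_of_one_le (one_le_mul_of_one_le_of_one_le hNP1 hNE1) hL1
  have hD0 : 0 ≤ D := by
    have h1 := hD 1 le_rfl (by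
      have : 0 < NP * NE * L := by positivity
      omega)
    have h2 : d 1 = 1 := by simp [d]
    linarith
  have hG0 : 0 ≤ G := Finset.sum_nonneg fun t _ => by positivity
  set AB := Finset.Ioc NP (4 * NP) ×ˢ Finset.Ioc NE (4 * NE) with hAB
  set K : ℝ := (∑ n ∈ Finset.Ioc NP (4 * NP), ‖bP n‖ ^ 2) *
    ∑ n ∈ Finset.Ioc NE (4 * NE), ‖bE n‖ ^ 2 with hK
  have hcard : ∑ x ∈ AB, (‖bP x.1‖ * ‖bE x.2‖) ^ 2 = K := by
    rw [hAB, Finset.sum_product, hK, Finset.sum_mul_sum]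
    refine Finset.sum_congr rfl fun a _ => Finset.sum_congr rfl fun b _ => ?_
    rw [mul_pow]
  -- first step
  have h1 : G ≤ ∑ x ∈ AB, (‖bP x.1‖ * ‖bE x.2‖) * ‖LB1_H W v (x.1 * x.2 * l)‖ := by
    have h2 : G = ‖((G : ℝ) : ℂ)‖ := by
      rw [Complex.norm_real, Real.norm_of_nonneg hG0]
    rw [h2, hG, LB1_expand hE]
    refine (norm_sum_le _ _).trans (Finset.sum_le_sum fun x hx => ?_)
    rw [Finset.mem_product] at hx
    have h3 : ∑ t ∈ W, (PP NP bP t * PP NE bE t) * (ex (t * Real.log x.1) * ex (t * Real.log x.2)) =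
        LB1_H W v (x.1 * x.2 * l) := by
      rw [LB1_H]
      refine Finset.sum_congr rfl fun t _ => ?_
      have hx1 := Finset.mem_Ioc.1 hx.1
      have hx2 := Finset.mem_Ioc.1 hx.2
      have h4 : Real.log ((x.1 * x.2 * l : ℕ) : ℝ) = Real.log x.1 + Real.log x.2 + Real.log l := by
        have h5 : ((x.1 : ℕ) : ℝ) ≠ 0 := by
          have : x.1 ≠ 0 := by omega
          exact_mod_cast this
        have h6 : ((x.2 : ℕ) : ℝ) ≠ 0 := by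
          have : x.2 ≠ 0 := by omega
          exact_mod_cast this
        have h7 : ((l : ℕ) : ℝ) ≠ 0 := by
          have : l ≠ 0 := by omega
          exact_mod_cast this
        push_cast
        rw [Real.log_mul (mul_ne_zero h5 h6) h7, Real.log_mul h5 h6]
      rw [h4, hv]
      have h8 : ex (t * Real.log x.1) * ex (t * Real.log x.2) =
          ex (-(t * Real.log l)) * ex (t * (Real.log x.1 + Real.log x.2 + Real.log l)) := by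
        rw [← e2, ← e2]
        congr 1
        ring
      rw [h8]
      ring
    rw [norm_mul, norm_mul, RCLike.norm_conj, RCLike.norm_conj, h3]
  have h2 : G ^ 2 ≤ K * ∑ x ∈ AB, ‖LB1_H W v (x.1 * x.2 * l)‖ ^ 2 := by
    calc G ^ 2 ≤ (∑ x ∈ AB, (‖bP x.1‖ * ‖bE x.2‖) * ‖LB1_H W v (x.1 * x.2 * l)‖) ^ 2 :=
          pow_le_pow_left₀ hG0 h1 2
      _ ≤ (∑ x ∈ AB, (‖bP x.1‖ * ‖bE x.2‖) ^ 2) * ∑ x ∈ AB, ‖LB1_H W v (x.1 * x.2 * l)‖ ^ 2 :=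
          Finset.sum_mul_sq_le_sq_mul_sq _ _ _
      _ = _ := by rw [hcard]
  have h3 := LB1_group hB NP NE L l D (fun k => ‖LB1_H W v k‖ ^ 2) (fun k => by positivity)
    hNP hNE hL hD hl
  have h4 : ∑ k ∈ Finset.Icc 1 ⌊64 * X⌋₊, Phi ((k : ℝ) / X) * ‖LB1_H W v k‖ ^ 2 ≤
      mu X * G + ‖∑ τ ∈ W, (starRingEnd ℂ) (v τ) *
        ∑ t ∈ W, if t = τ then 0 else BX X (τ - t) * v t‖ := by
    have h5 := LB1_exp hE W v X
    have h6 : ∑ τ ∈ W, (starRingEnd ℂ) (v τ) * ∑ t ∈ W, BX X (τ - t) * v t =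
        ((mu X * G : ℝ) : ℂ) + ∑ τ ∈ W, (starRingEnd ℂ) (v τ) *
        ∑ t ∈ W, if t = τ then 0 else BX X (τ - t) * v t := by
      have h7 : ∀ τ ∈ W, ∑ t ∈ W, BX X (τ - t) * v t = (mu X : ℂ) * v τ +
          ∑ t ∈ W, if t = τ then 0 else BX X (τ - t) * v t := by
        intro τ hτ
        have h8 : ∑ t ∈ W, BX X (τ - t) * v t = ∑ t ∈ W,
            ((if t = τ then (mu X : ℂ) * v τ else 0) +
              (if t = τ then 0 else BX X (τ - t) * v t)) := by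
          refine Finset.sum_congr rfl fun t _ => ?_
          by_cases h : t = τ
          · rw [if_pos h, if_pos h, h, sub_self, e8, add_zero]
          · rw [if_neg h, if_neg h, zero_add]
        rw [h8, Finset.sum_add_distrib, Finset.sum_ite_eq' W τ, if_pos hτ]
      rw [Finset.sum_congr rfl (fun τ hτ => by rw [h7 τ hτ])]
      simp_rw [mul_add]
      rw [Finset.sum_add_distrib]
      congr 1
      have h9 : ∀ τ, (starRingEnd ℂ) (v τ) * ((mu X : ℂ) * v τ) =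
          ((mu X * ‖PP NP bP τ * PP NE bE τ‖ ^ 2 : ℝ) : ℂ) := by
        intro τ
        have h10 : ‖v τ‖ = ‖PP NP bP τ * PP NE bE τ‖ := by
          rw [hv]
          simp only
          rw [norm_mul, e1, mul_one]
        rw [← h10]
        push_cast
        rw [← Complex.conj_mul']
        ring
      simp_rw [h9]
      rw [← Complex.ofReal_sum, hG, Finset.mul_sum]
    have h11 : 0 ≤ ∑ k ∈ Finset.Icc 1 ⌊64 * X⌋₊, Phi ((k : ℝ) / X) * ‖LB1_H W v k‖ ^ 2 :=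
      Finset.sum_nonneg fun k _ => mul_nonneg (hB.1 _).1 (by positivity)
    have h12 : ∑ k ∈ Finset.Icc 1 ⌊64 * X⌋₊, Phi ((k : ℝ) / X) * ‖LB1_H W v k‖ ^ 2 =
        ‖((∑ k ∈ Finset.Icc 1 ⌊64 * X⌋₊, Phi ((k : ℝ) / X) * ‖LB1_H W v k‖ ^ 2 : ℝ) : ℂ)‖ := by
      rw [Complex.norm_real, Real.norm_of_nonneg h11]
    rw [h12, h5, h6]
    refine (norm_add_le _ _).trans ?_
    rw [Complex.norm_real, Real.norm_of_nonneg (mul_nonneg (e9 X hX1).1 hG0)]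
  have h5 : (0 : ℝ) ≤ K := by positivity
  calc G ^ 2 ≤ K * ∑ x ∈ AB, ‖LB1_H W v (x.1 * x.2 * l)‖ ^ 2 := h2
    _ ≤ K * (D * ∑ k ∈ Finset.Icc 1 ⌊64 * X⌋₊,
        Phi ((k : ℝ) / X) * ‖LB1_H W v k‖ ^ 2) := mul_le_mul_of_nonneg_left h3 h5
    _ ≤ K * (D * (mu X * G + ‖∑ τ ∈ W, (starRingEnd ℂ) (v τ) *
        ∑ t ∈ W, if t = τ then 0 else BX X (τ - t) * v t‖)) :=
        mul_le_mul_of_nonneg_left (mul_le_mul_of_nonneg_left h4 hD0) h5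
    _ = K * D * (mu X * G + ‖∑ τ ∈ W, (starRingEnd ℂ) (v τ) *
        ∑ t ∈ W, if t = τ then 0 else BX X (τ - t) * v t‖) := by ring


theorem LVS_cs (A : Finset ℕ) (b F : ℕ → ℂ) :
    ‖∑ n ∈ A, b n * F n‖ ^ 2 ≤ (∑ n ∈ A, ‖b n‖ ^ 2) * ∑ n ∈ A, ‖F n‖ ^ 2 := by
  have h1 : ‖∑ n ∈ A, b n * F n‖ ≤ ∑ n ∈ A, ‖b n‖ * ‖F n‖ := by
    refine (norm_sum_le _ _).trans (Finset.sum_le_sum fun n _ => ?_)
    rw [norm_mul]
  exact (pow_le_pow_left₀ (norm_nonneg _) h1 2).trans (Finset.sum_mul_sq_le_sq_mul_sq _ _ _)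

/-- The lower bound, second part. -/
theorem LVS_LB2 (hEXA : EXA_stmt) (hBPH : BPH_stmt) (W : Finset ℝ) (X : ℝ) (P : ℝ → ℂ) (NE L : ℕ)
    (bE : ℕ → ℂ) (D τ : ℝ) (hNE : 1 ≤ NE) (hL : 1 ≤ L)
    (hD : ∀ k : ℕ, 1 ≤ k → k ≤ 32 * (NE * L) → d k ≤ D) :
    ∑ l ∈ Finset.Ioc L (2 * L), ‖∑ t ∈ W, if t = τ then 0 else BX X (τ - t) *
      (P t * PP NE bE t * ex (-(t * Real.log l)))‖ ^ 2 ≤
      (∑ n ∈ Finset.Ioc NE (4 * NE), ‖bE n‖ ^ 2) * D * qk W X (NE * L) P τ := by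
  have hNL : 1 ≤ NE * L := Nat.mul_pos hNE hL
  have hD0 : 0 ≤ D := by
    have h1 := hD 1 le_rfl (by omega)
    have h2 : (0 : ℝ) ≤ d 1 := by unfold d; positivity
    linarith
  have hNL0 : (0 : ℝ) < (NE : ℝ) * L := by
    have : (0 : ℝ) < ((NE * L : ℕ) : ℝ) := by exact_mod_cast hNL
    simpa using this
  have h1 : ∀ l ∈ Finset.Ioc L (2 * L), ‖∑ t ∈ W, if t = τ then 0 else BX X (τ - t) *
      (P t * PP NE bE t * ex (-(t * Real.log l)))‖ ^ 2 ≤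
      (∑ n ∈ Finset.Ioc NE (4 * NE), ‖bE n‖ ^ 2) *
        ∑ n ∈ Finset.Ioc NE (4 * NE), ‖FK W X P τ (n * l)‖ ^ 2 := by
    intro l hl
    rw [Finset.mem_Ioc] at hl
    rw [LB2_inner hEXA W X P NE bE τ l (by omega)]
    exact LVS_cs _ bE (fun n => FK W X P τ (n * l))
  refine (Finset.sum_le_sum h1).trans ?_
  rw [← Finset.mul_sum, mul_assoc (∑ n ∈ Finset.Ioc NE (4 * NE), ‖bE n‖ ^ 2)]
  refine mul_le_mul_of_nonneg_left ?_ (by positivity)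
  -- group by the product
  set S := (Finset.Ioc L (2 * L)) ×ˢ (Finset.Ioc NE (4 * NE)) with hS
  have h3 : ∑ l ∈ Finset.Ioc L (2 * L), ∑ n ∈ Finset.Ioc NE (4 * NE), ‖FK W X P τ (n * l)‖ ^ 2 =
      ∑ x ∈ S, ‖FK W X P τ (x.2 * x.1)‖ ^ 2 := by
    rw [hS, Finset.sum_product]
  have h4 : ∀ x ∈ S, x.2 * x.1 ∈ Finset.Ioc (NE * L) (8 * (NE * L)) := by
    intro x hx
    rw [hS, Finset.mem_product, Finset.mem_Ioc, Finset.mem_Ioc] at hx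
    rw [Finset.mem_Ioc]
    obtain ⟨⟨a1, a2⟩, a3, a4⟩ := hx
    constructor
    · exact Nat.mul_lt_mul'' a3 a1
    · calc x.2 * x.1 ≤ (4 * NE) * (2 * L) := Nat.mul_le_mul a4 a2
        _ = 8 * (NE * L) := by ring
  rw [h3, ← Finset.sum_fiberwise_of_maps_to h4]
  have h5 : ∀ k ∈ Finset.Ioc (NE * L) (8 * (NE * L)),
      ∑ x ∈ S with x.2 * x.1 = k, ‖FK W X P τ (x.2 * x.1)‖ ^ 2 ≤
        D * (Phi ((k : ℝ) / ((NE : ℝ) * L)) * ‖FK W X P τ k‖ ^ 2) := by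
    intro k hk
    rw [Finset.mem_Ioc] at hk
    have h6 : ∑ x ∈ S with x.2 * x.1 = k, ‖FK W X P τ (x.2 * x.1)‖ ^ 2 =
        ∑ x ∈ S with x.2 * x.1 = k, ‖FK W X P τ k‖ ^ 2 := by
      refine Finset.sum_congr rfl fun x hx => ?_
      rw [(Finset.mem_filter.mp hx).2]
    have h7 : Phi ((k : ℝ) / ((NE : ℝ) * L)) = 1 := by
      apply hBPH.2.1
      · rw [le_div_iff₀ hNL0, one_mul]
        exact_mod_cast hk.1.le
      · rw [div_le_iff₀ hNL0]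
        have h8 : (k : ℝ) ≤ ((8 * (NE * L) : ℕ) : ℝ) := by exact_mod_cast hk.2
        push_cast at h8
        linarith
    rw [h6, Finset.sum_const, nsmul_eq_mul, h7, one_mul]
    refine mul_le_mul_of_nonneg_right ?_ (by positivity)
    exact (LB2_fib NE L k (by omega)).trans (hD k (by omega) (by omega))
  refine (Finset.sum_le_sum h5).trans ?_
  rw [← Finset.mul_sum]
  refine mul_le_mul_of_nonneg_left ?_ hD0
  unfold qk
  refine Finset.sum_le_sum_of_subset_of_nonneg ?_ ?_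
  · intro k hk
    rw [Finset.mem_Ioc] at hk
    rw [Finset.mem_Icc]
    refine ⟨by omega, ?_⟩
    rw [Nat.le_floor_iff (by positivity)]
    have h8 : (k : ℝ) ≤ ((8 * (NE * L) : ℕ) : ℝ) := by exact_mod_cast hk.2
    push_cast at h8
    linarith
  · intro k _ _
    exact mul_nonneg (hBPH.1 _).1 (by positivity)


/-- The lower bound. -/
theorem LVS_LBD (hE : EXA_stmt) (hBPH : BPH_stmt) (W : Finset ℝ) (NP NE L : ℕ) (bP bE : ℕ → ℂ) (D : ℝ)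
    (hNP : 1 ≤ NP) (hNE : 1 ≤ NE) (hL : 1 ≤ L)
    (hd : ∀ k : ℕ, 1 ≤ k → k ≤ 32 * (NP * NE * L) → d k ≤ D) (hmu : 0 ≤ mu (NP * NE * L))
    (GP GE : ℝ) (hGP : GP = ∑ n ∈ Finset.Ioc NP (4 * NP), ‖bP n‖ ^ 2)
    (hGE : GE = ∑ n ∈ Finset.Ioc NE (4 * NE), ‖bE n‖ ^ 2) :
    ∑ t ∈ W, ‖PP NP bP t * PP NE bE t‖ ^ 2 ≤ 2 * (GP * GE) * D * mu (NP * NE * L) ∨
    L * (∑ t ∈ W, ‖PP NP bP t * PP NE bE t‖ ^ 2) ^ 3 ≤ 4 * (GP * GE) ^ 2 * GE * D ^ 3 *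
      ∑ τ ∈ W, qk W (NP * NE * L) (NE * L) (PP NP bP) τ := by
  have hGP0 : 0 ≤ GP := by
    rw [hGP]
    exact Finset.sum_nonneg fun n _ => by positivity
  have hGE0 : 0 ≤ GE := by
    rw [hGE]
    exact Finset.sum_nonneg fun n _ => by positivity
  have hD1 : 1 ≤ D := by
    have h := hd 1 le_rfl (by
      have : 1 ≤ NP * NE * L := Nat.succ_le_of_lt (by positivity)
      omega)
    have h1 : d 1 = 1 := by simp [d]
    rwa [h1] at h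
  have hD0 : 0 ≤ D := by linarith
  set G : ℝ := ∑ t ∈ W, ‖PP NP bP t * PP NE bE t‖ ^ 2 with hGdef
  have hG : 0 ≤ G := Finset.sum_nonneg fun t _ => by positivity
  set B : ℝ := GP * GE * D with hBdef
  have hB : 0 ≤ B := by positivity
  set μ : ℝ := mu (NP * NE * L) with hμdef
  by_cases hcase : G ≤ 2 * B * μ
  · left
    refine hcase.trans (le_of_eq ?_)
    rw [hBdef]; ring
  right
  push Not at hcase
  -- the inner sums
  set Gl : ℕ → ℝ → ℂ := fun l τ => ∑ t ∈ W, if t = τ then 0 else BX (NP * NE * L) (τ - t) *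
          (PP NP bP t * PP NE bE t * ex (-(t * Real.log l))) with hGl
  have hstep : ∀ l ∈ Finset.Ioc L (2 * L), G ^ 3 ≤ 4 * B ^ 2 * ∑ τ ∈ W, ‖Gl l τ‖ ^ 2 := by
    intro l hl
    have h1 := LVS_LB1 hE hBPH W NP NE L bP bE D hNP hNE hL hd l hl
    rw [← hGP, ← hGE] at h1
    have h2 := LBD_cs W (fun τ => PP NP bP τ * PP NE bE τ * ex (-(τ * Real.log l))) (Gl l)
    have h3 : ∑ t ∈ W, ‖PP NP bP t * PP NE bE t * ex (-(t * Real.log l))‖ ^ 2 = G := by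
      rw [hGdef]
      refine Finset.sum_congr rfl fun t _ => ?_
      rw [norm_mul (PP NP bP t * PP NE bE t), LBD_normex, mul_one]
    rw [h3] at h2
    exact LBD_alg hG hB (norm_nonneg _) h1 h2 hcase hmu
  have hsum := Finset.sum_le_sum hstep
  rw [Finset.sum_const, Nat.card_Ioc, nsmul_eq_mul, ← Finset.mul_sum, Finset.sum_comm] at hsum
  have hcard : ((2 * L - L : ℕ) : ℝ) = L := by
    congr 1; omega
  rw [hcard] at hsum
  have hLB2' : ∀ τ ∈ W, ∑ l ∈ Finset.Ioc L (2 * L), ‖Gl l τ‖ ^ 2 ≤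
      GE * D * qk W (NP * NE * L) (NE * L) (PP NP bP) τ := by
    intro τ _
    rw [hGE]
    refine LVS_LB2 hE hBPH W (NP * NE * L) (PP NP bP) NE L bE D τ hNE hL fun k hk1 hk2 => hd k hk1 ?_
    refine hk2.trans (Nat.mul_le_mul_left _ ?_)
    have : NP * NE * L = NP * (NE * L) := by ring
    rw [this]
    exact Nat.le_mul_of_pos_left _ hNP
  have hsum2 := Finset.sum_le_sum hLB2'
  rw [← Finset.mul_sum] at hsum2
  refine hsum.trans ((mul_le_mul_of_nonneg_left hsum2 (by positivity)).trans (le_of_eq ?_))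
  rw [hBdef]; ring


/-- The general large values inequality, with the square norms of the coefficients. -/
theorem LVS_GLV (hBPH : BPH_stmt) (hMQI : MQI_stmt) (hEXA : EXA_stmt) (ε δ : ℝ) (hε : 0 < ε)
    (hδ : 0 < δ) (hδ' : δ ≤ 1 / 10) : ∃ C T₀ : ℝ, 0 < C ∧
  ∀ T : ℝ, T₀ ≤ T → ∀ W : Finset ℝ, Sep δ T W → ∀ (NP NE NQ L : ℕ) (bP bE bQ : ℕ → ℂ)
  (UP V VQ GP GE : ℝ), 1 ≤ NP → 1 ≤ NE → 1 ≤ NQ → 1 ≤ L → T ^ (1 / 4 : ℝ) ≤ (NE : ℝ) * L →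
  NQ ≤ NE * L → (NP : ℝ) * NE * L ≤ 2 * T → (∀ n ∈ Finset.Ioc NP (4 * NP), ‖bP n‖ ≤ 1) →
  (∀ n ∈ Finset.Ioc NQ (4 * NQ), ‖bQ n‖ ≤ 1) →
  GP = ∑ n ∈ Finset.Ioc NP (4 * NP), ‖bP n‖ ^ 2 → GE = ∑ n ∈ Finset.Ioc NE (4 * NE), ‖bE n‖ ^ 2 →
  0 ≤ UP → 0 ≤ V → 0 ≤ VQ →
  (∀ t ∈ W, ‖PP NP bP t‖ ≤ UP ∧ V ≤ ‖PP NP bP t * PP NE bE t‖ ∧ VQ ≤ ‖PP NQ bQ t‖) →
  (W.card : ℝ) * V ^ 2 ≤ C * T ^ ε * (GP * GE * ((NP : ℝ) * NE * L)) ∨
  VQ ^ 2 * (L * V ^ 6 * (W.card : ℝ) ^ 2) ≤ C * T ^ (ε + 6 * δ) *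
    ((GP * GE) ^ 2 * GE * (NE * L * T * NQ)) * (UP ^ 2 * (NP * NE * L) + NP * T +
      ((NP : ℝ) ^ 3 * UP ^ 2 * T) ^ (1 / 2 : ℝ) + UP ^ 2 * NQ * T / (NE * L)) := by
  obtain ⟨C₁, T₁, hC₁, hM⟩ := hMQI (ε / 2) δ (by positivity) hδ hδ'
  obtain ⟨C₂, hC₂, hdiv⟩ := divisor_bound (ε / 8) (by positivity)
  obtain ⟨E, hE⟩ : ∃ E : ℝ, E = C₂ * (64 : ℝ) ^ (ε / 8) := ⟨_, rfl⟩
  have hE0 : 0 < E := by rw [hE]; positivity
  refine ⟨1152 * E + 972 * C₁ * E ^ 3, max T₁ 1, by positivity, ?_⟩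
  intro T hT W hW NP NE NQ L bP bE bQ UP V VQ GP GE hNP hNE hNQ hL h14 hNQL hX hbP hbQ hGP hGE hUP
    hV hVQ hWt
  have hGP0 : 0 ≤ GP := by
    rw [hGP]
    exact Finset.sum_nonneg fun n _ => by positivity
  have hGE0 : 0 ≤ GE := by
    rw [hGE]
    exact Finset.sum_nonneg fun n _ => by positivity
  have hT1 : 1 ≤ T := (le_max_right _ _).trans hT
  have hT0 : 0 < T := by linarith
  have hTT₁ : T₁ ≤ T := (le_max_left _ _).trans hT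
  have rNP : (1 : ℝ) ≤ NP := by exact_mod_cast hNP
  have rNE : (1 : ℝ) ≤ NE := by exact_mod_cast hNE
  have rNQ : (1 : ℝ) ≤ NQ := by exact_mod_cast hNQ
  have rL : (1 : ℝ) ≤ L := by exact_mod_cast hL
  have hX1 : (1 : ℝ) ≤ (NP : ℝ) * NE * L := by
    have h1 : (1 : ℝ) ≤ (NP : ℝ) * NE := by nlinarith
    nlinarith
  obtain ⟨D, hD⟩ : ∃ D : ℝ, D = E * T ^ (ε / 8) := ⟨_, rfl⟩
  have hD0 : 0 < D := by rw [hD]; positivity
  have hdk : ∀ k : ℕ, 1 ≤ k → k ≤ 32 * (NP * NE * L) → d k ≤ D := by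
    intro k hk1 hk2
    refine (hdiv k hk1).trans ?_
    have h1 : (k : ℝ) ≤ 64 * T := by
      have h2 : (k : ℝ) ≤ 32 * ((NP : ℝ) * NE * L) := by exact_mod_cast hk2
      linarith
    have h3 : (k : ℝ) ^ (ε / 8) ≤ (64 * T) ^ (ε / 8) :=
      Real.rpow_le_rpow (Nat.cast_nonneg k) h1 (by positivity)
    rw [Real.mul_rpow (by norm_num) hT0.le] at h3
    rw [hD, hE, mul_assoc]
    exact mul_le_mul_of_nonneg_left h3 hC₂.le
  obtain ⟨hmu0, hmu⟩ := hEXA.2.2.2.2.2.2.2.2 ((NP : ℝ) * NE * L) hX1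
  obtain ⟨G, hG⟩ : ∃ G : ℝ, G = ∑ t ∈ W, ‖PP NP bP t * PP NE bE t‖ ^ 2 := ⟨_, rfl⟩
  obtain ⟨S, hS⟩ : ∃ S : ℝ, S = ∑ τ ∈ W, qk W (NP * NE * L) (NE * L) (PP NP bP) τ := ⟨_, rfl⟩
  have hLB := LVS_LBD hEXA hBPH W NP NE L bP bE D hNP hNE hL hdk hmu0 GP GE hGP hGE
  have hMQ := hM T hTT₁ W hW NP NE NQ L bP bQ UP VQ hNP hNE hNQ hL h14 hNQL hX hbP hbQ hUP hVQ
    (fun t ht => ⟨(hWt t ht).1, (hWt t ht).2.2⟩)
  rw [← hG, ← hS] at hLB
  rw [← hS] at hMQ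
  have hR0 : (0 : ℝ) ≤ (W.card : ℝ) := Nat.cast_nonneg _
  have hRG : (W.card : ℝ) * V ^ 2 ≤ G := by
    rw [hG, ← nsmul_eq_mul]
    refine Finset.card_nsmul_le_sum W _ _ fun t ht => ?_
    exact pow_le_pow_left₀ hV (hWt t ht).2.1 2
  have hTe : T ^ (ε / 8) ≤ T ^ ε := Real.rpow_le_rpow_of_exponent_le hT1 (by linarith)
  obtain ⟨Z, hZ⟩ : ∃ Z : ℝ, Z = UP ^ 2 * (NP * NE * L) + NP * T +
      ((NP : ℝ) ^ 3 * UP ^ 2 * T) ^ (1 / 2 : ℝ) + UP ^ 2 * NQ * T / (NE * L) := ⟨_, rfl⟩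
  have hZ0 : 0 ≤ Z := by rw [hZ]; positivity
  rw [← hZ] at hMQ ⊢
  rcases hLB with h1 | h1
  · left
    calc (W.card : ℝ) * V ^ 2 ≤ G := hRG
      _ ≤ 2 * (GP * GE) * D * mu (NP * NE * L) := h1
      _ ≤ 2 * (GP * GE) * D * (64 * (NP * NE * L)) :=
        mul_le_mul_of_nonneg_left hmu (by positivity)
      _ = (128 * E) * T ^ (ε / 8) * (GP * GE * ((NP : ℝ) * NE * L)) := by rw [hD]; ring
      _ ≤ (1152 * E + 972 * C₁ * E ^ 3) * T ^ ε * (GP * GE * ((NP : ℝ) * NE * L)) := by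
        have h2 : 0 ≤ 972 * C₁ * E ^ 3 := by positivity
        gcongr
        linarith
  · rcases hR0.eq_or_lt with h0 | hRpos
    · left
      rw [← h0, zero_mul]
      positivity
    right
    have h2 : (L : ℝ) * ((W.card : ℝ) * V ^ 2) ^ 3 ≤ L * G ^ 3 := by
      gcongr
    have h3 : VQ ^ 2 * ((L : ℝ) * ((W.card : ℝ) * V ^ 2) ^ 3) ≤
        4 * (GP * GE) ^ 2 * GE * D ^ 3 * (VQ ^ 2 * S) := by
      calc VQ ^ 2 * ((L : ℝ) * ((W.card : ℝ) * V ^ 2) ^ 3)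
          ≤ VQ ^ 2 * (4 * (GP * GE) ^ 2 * GE * D ^ 3 * S) :=
            mul_le_mul_of_nonneg_left (h2.trans h1) (by positivity)
        _ = _ := by ring
    have h4 : VQ ^ 2 * ((L : ℝ) * ((W.card : ℝ) * V ^ 2) ^ 3) ≤
        4 * (GP * GE) ^ 2 * GE * D ^ 3 * (C₁ * T ^ (ε / 2 + 6 * δ) *
        (W.card : ℝ) * (NE * L * T * NQ) * Z) :=
      h3.trans (mul_le_mul_of_nonneg_left hMQ (by positivity))
    have hD3 : D ^ 3 = E ^ 3 * T ^ (3 * (ε / 8)) := by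
      rw [hD, mul_pow, ← Real.rpow_natCast (T ^ (ε / 8)) 3, ← Real.rpow_mul hT0.le]
      norm_num
      left
      ring_nf
    have hTD : T ^ (3 * (ε / 8)) * T ^ (ε / 2 + 6 * δ) ≤ T ^ (ε + 6 * δ) := by
      rw [← Real.rpow_add hT0]
      exact Real.rpow_le_rpow_of_exponent_le hT1 (by linarith)
    have h5 : (W.card : ℝ) * (VQ ^ 2 * (L * V ^ 6 * (W.card : ℝ) ^ 2)) ≤
        (W.card : ℝ) * ((1152 * E + 972 * C₁ * E ^ 3) * T ^ (ε + 6 * δ) *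
          ((GP * GE) ^ 2 * GE * (NE * L * T * NQ)) * Z) := by
      calc (W.card : ℝ) * (VQ ^ 2 * (L * V ^ 6 * (W.card : ℝ) ^ 2))
          = VQ ^ 2 * ((L : ℝ) * ((W.card : ℝ) * V ^ 2) ^ 3) := by ring
        _ ≤ _ := h4
        _ = (W.card : ℝ) * ((4 * C₁ * E ^ 3) * (T ^ (3 * (ε / 8)) * T ^ (ε / 2 + 6 * δ)) *
          ((GP * GE) ^ 2 * GE * (NE * L * T * NQ)) * Z) := by rw [hD3]; ring
        _ ≤ _ := by
          have h6 : 0 ≤ 1152 * E := by positivity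
          have h7 : 0 ≤ C₁ * E ^ 3 := by positivity
          gcongr
          linarith
    exact le_of_mul_le_mul_left h5 hRpos

end Pool.Agent.NF
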