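import Pool.Agent.helper56.LVS.General

/-!
# Large values of short Dirichlet polynomials: the theorem
-/

set_option autoImplicit false

open Complex MeasureTheory

namespace Pool.Agent.NF

open Pool.Agent.helper84.DM Pool.Agent.helper78.ED Pool.Agent.DH Pool.Agent.ZD

/-- The bound. -/
noncomputable def LVSB (T N G V : ℝ) : ℝ :=
  T ^ (3 / 4 : ℝ) * G ^ (5 / 2 : ℝ) * N ^ (3 / 2 : ℝ) / V ^ 6 +
    T * G ^ (5 / 2 : ℝ) * N ^ (3 / 2 : ℝ) / V ^ 7 + T ^ (1 / 2 : ℝ) * G ^ 2 * N / V ^ 4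

theorem LVSB_nonneg (T N G V : ℝ) (hT : 0 ≤ T) (hN : 0 ≤ N) (hG : 0 ≤ G) (hV : 0 < V) :
    0 ≤ LVSB T N G V := by
  have h1 : 0 ≤ T ^ (3 / 4 : ℝ) := Real.rpow_nonneg hT _
  have h2 : 0 ≤ T ^ (1 / 2 : ℝ) := Real.rpow_nonneg hT _
  have h3 : 0 ≤ G ^ (5 / 2 : ℝ) := Real.rpow_nonneg hG _
  have h4 : 0 ≤ N ^ (3 / 2 : ℝ) := Real.rpow_nonneg hN _
  unfold LVSB
  positivity

theorem LVSB_level (T N G V : ℝ) (hT : 0 ≤ T) (hN : 0 ≤ N) (hG : 0 ≤ G) (hV : 0 < V) (j : ℕ) :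
    LVSB T N G (2 ^ j * V) ≤ LVSB T N G V * (1 / 2) ^ j := by
  have h1 : 0 ≤ T ^ (3 / 4 : ℝ) := Real.rpow_nonneg hT _
  have h2 : 0 ≤ T ^ (1 / 2 : ℝ) := Real.rpow_nonneg hT _
  have h3 : 0 ≤ G ^ (5 / 2 : ℝ) := Real.rpow_nonneg hG _
  have h4 : 0 ≤ N ^ (3 / 2 : ℝ) := Real.rpow_nonneg hN _
  have key : ∀ (A : ℝ) (k : ℕ), 0 ≤ A → 1 ≤ k →
      A / (2 ^ j * V) ^ k ≤ A / V ^ k * (1 / 2) ^ j := by
    intro A k hA hk
    have h5 : A / V ^ k * (1 / 2) ^ j = A / (2 ^ j * V ^ k) := by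
      rw [one_div, inv_pow]
      field_simp
    rw [h5]
    refine div_le_div_of_nonneg_left hA (by positivity) ?_
    rw [mul_pow]
    refine mul_le_mul_of_nonneg_right ?_ (by positivity)
    have h6 : (1 : ℝ) ≤ 2 ^ j := one_le_pow₀ (by norm_num)
    calc (2 : ℝ) ^ j = (2 ^ j) ^ 1 := (pow_one _).symm
      _ ≤ (2 ^ j) ^ k := pow_le_pow_right₀ h6 hk
  unfold LVSB
  have e1 := key (T ^ (3 / 4 : ℝ) * G ^ (5 / 2 : ℝ) * N ^ (3 / 2 : ℝ)) 6 (by positivity) (by norm_num)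
  have e2 := key (T * G ^ (5 / 2 : ℝ) * N ^ (3 / 2 : ℝ)) 7 (by positivity) (by norm_num)
  have e3 := key (T ^ (1 / 2 : ℝ) * G ^ 2 * N) 4 (by positivity) (by norm_num)
  rw [add_mul, add_mul]
  exact add_le_add (add_le_add e1 e2) e3

theorem LVS_real (R V K G N L T : ℝ) (hR : 0 ≤ R) (hK : 1 ≤ K) (hG : 0 ≤ G) (hN : 1 ≤ N) (hT : 1 ≤ T)
    (hNT : N ≤ T ^ (1 / 2 : ℝ)) (hV : 0 < V) (hL1 : T ^ (1 / 2 : ℝ) / N ≤ L)
    (hL2 : L ≤ 2 * (T ^ (1 / 2 : ℝ) / N))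
    (h : R * (V ^ 2) ^ 2 ≤ K * (G * G * (N * N * L)) ∨
      V ^ 2 * (L * (V ^ 2) ^ 6 * R ^ 2) ≤ K * ((G * G) ^ 2 * G * (N * L * T * N)) *
        ((2 * V) ^ 2 * (N * N * L) + N * T + (N ^ 3 * (2 * V) ^ 2 * T) ^ (1 / 2 : ℝ) +
          (2 * V) ^ 2 * N * T / (N * L))) :
    R ≤ 14 * K * LVSB T N G V := by
  have hN0 : 0 < N := by linarith
  have hT0 : 0 < T := by linarith
  have hK0 : 0 < K := by linarith
  obtain ⟨u, hu, hu4⟩ : ∃ u : ℝ, 0 < u ∧ u ^ 4 = T := by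
    refine ⟨T ^ (1 / 4 : ℝ), Real.rpow_pos_of_pos hT0 _, ?_⟩
    rw [← Real.rpow_natCast, ← Real.rpow_mul hT0.le]
    norm_num
  have hT12 : T ^ (1 / 2 : ℝ) = u ^ 2 := by
    rw [← hu4, ← Real.rpow_natCast u 4, ← Real.rpow_mul hu.le, ← Real.rpow_natCast u 2]
    norm_num
  have hT34 : T ^ (3 / 4 : ℝ) = u ^ 3 := by
    rw [← hu4, ← Real.rpow_natCast u 4, ← Real.rpow_mul hu.le, ← Real.rpow_natCast u 3]
    norm_num
  obtain ⟨n, hn, hn2, hn3⟩ : ∃ n : ℝ, 0 < n ∧ n ^ 2 = N ∧ N ^ (3 / 2 : ℝ) = n ^ 3 := by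
    refine ⟨N ^ (1 / 2 : ℝ), Real.rpow_pos_of_pos hN0 _, ?_, ?_⟩
    · rw [← Real.rpow_natCast, ← Real.rpow_mul hN0.le]
      norm_num
    · rw [← Real.rpow_natCast, ← Real.rpow_mul hN0.le]
      norm_num
  obtain ⟨g, hg, hg2, hg5⟩ : ∃ g : ℝ, 0 ≤ g ∧ g ^ 2 = G ∧ G ^ (5 / 2 : ℝ) = g ^ 5 := by
    refine ⟨G ^ (1 / 2 : ℝ), Real.rpow_nonneg hG _, ?_, ?_⟩
    · rw [← Real.rpow_natCast, ← Real.rpow_mul hG]
      norm_num
    · rw [← Real.rpow_natCast, ← Real.rpow_mul hG]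
      norm_num
  rw [hT12] at hL1 hL2 hNT
  have hL : 0 < L := lt_of_lt_of_le (by positivity) hL1
  have hNL1 : u ^ 2 ≤ N * L := by
    rw [div_le_iff₀ hN0] at hL1
    linarith
  have hNL2 : N * L ≤ 2 * u ^ 2 := by
    have h1 : L * N ≤ 2 * (u ^ 2 / N) * N := by gcongr
    have h2 : 2 * (u ^ 2 / N) * N = 2 * u ^ 2 := by field_simp
    linarith
  unfold LVSB
  rw [hT12, hT34, hn3, hg5]
  have hA0 : 0 ≤ u ^ 3 * g ^ 5 * n ^ 3 / V ^ 6 := by positivity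
  have hB0 : 0 ≤ u ^ 4 * g ^ 5 * n ^ 3 / V ^ 7 := by positivity
  have hC0 : 0 ≤ u ^ 2 * G ^ 2 * N / V ^ 4 := by positivity
  rcases h with h | h
  · -- first alternative
    have h1 : R * V ^ 4 ≤ 2 * K * (u ^ 2 * G ^ 2 * N) := by
      calc R * V ^ 4 = R * (V ^ 2) ^ 2 := by ring
        _ ≤ K * (G * G * (N * N * L)) := h
        _ = K * G ^ 2 * N * (N * L) := by ring
        _ ≤ K * G ^ 2 * N * (2 * u ^ 2) := by gcongr
        _ = 2 * K * (u ^ 2 * G ^ 2 * N) := by ring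
    have h2 : R ≤ 2 * K * (u ^ 2 * G ^ 2 * N / V ^ 4) := by
      rw [← mul_div_assoc, le_div_iff₀ (by positivity)]
      exact h1
    refine h2.trans ?_
    rw [← hu4]
    calc 2 * K * (u ^ 2 * G ^ 2 * N / V ^ 4) ≤ 14 * K * (u ^ 2 * G ^ 2 * N / V ^ 4) := by
          gcongr
          norm_num
      _ ≤ 14 * K * (u ^ 3 * g ^ 5 * n ^ 3 / V ^ 6 + u ^ 4 * g ^ 5 * n ^ 3 / V ^ 7 +
          u ^ 2 * G ^ 2 * N / V ^ 4) := by
          gcongr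
          linarith
  · -- second alternative
    have hb1 : (2 * V) ^ 2 * (N * N * L) ≤ 8 * N * V ^ 2 * u ^ 2 := by
      calc (2 * V) ^ 2 * (N * N * L) = 4 * V ^ 2 * N * (N * L) := by ring
        _ ≤ 4 * V ^ 2 * N * (2 * u ^ 2) := by gcongr
        _ = 8 * N * V ^ 2 * u ^ 2 := by ring
    have hb3 : (N ^ 3 * (2 * V) ^ 2 * T) ^ (1 / 2 : ℝ) ≤ N * V ^ 2 * u ^ 2 + N * u ^ 4 := by
      have h1 : N ^ 3 * (2 * V) ^ 2 * T = (2 * n ^ 3 * V * u ^ 2) ^ 2 := by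
        rw [← hu4, ← hn2]
        ring
      have h2 : (N ^ 3 * (2 * V) ^ 2 * T) ^ (1 / 2 : ℝ) = 2 * n ^ 3 * V * u ^ 2 := by
        rw [h1, ← Real.rpow_natCast, ← Real.rpow_mul (by positivity)]
        norm_num
      rw [h2, ← hn2]
      have h3 : n ^ 2 ≤ u ^ 2 := by rw [hn2]; exact hNT
      have h4 : 2 * (n * V) ≤ u ^ 2 + V ^ 2 := by nlinarith [sq_nonneg (n - V)]
      calc 2 * n ^ 3 * V * u ^ 2 = n ^ 2 * u ^ 2 * (2 * (n * V)) := by ring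
        _ ≤ n ^ 2 * u ^ 2 * (u ^ 2 + V ^ 2) := by gcongr
        _ = n ^ 2 * V ^ 2 * u ^ 2 + n ^ 2 * u ^ 4 := by ring
    have hb4 : (2 * V) ^ 2 * N * T / (N * L) ≤ 4 * N * V ^ 2 * u ^ 2 := by
      rw [div_le_iff₀ (by positivity), ← hu4]
      calc (2 * V) ^ 2 * N * u ^ 4 = 4 * N * V ^ 2 * u ^ 2 * u ^ 2 := by ring
        _ ≤ 4 * N * V ^ 2 * u ^ 2 * (N * L) := by gcongr
    have hbr : (2 * V) ^ 2 * (N * N * L) + N * T + (N ^ 3 * (2 * V) ^ 2 * T) ^ (1 / 2 : ℝ) +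
        (2 * V) ^ 2 * N * T / (N * L) ≤ 14 * N * (V ^ 2 * u ^ 2 + u ^ 4) := by
      have h1 : 0 ≤ N * u ^ 4 := by positivity
      have h2 : 0 ≤ N * V ^ 2 * u ^ 2 := by positivity
      rw [← hu4] at hb3 hb4 ⊢
      linarith
    have h1 : L * (V ^ 14 * R ^ 2) ≤ L * (14 * K * (G ^ 5 * N ^ 3 * u ^ 4 * (V ^ 2 * u ^ 2 + u ^ 4))) := by
      calc L * (V ^ 14 * R ^ 2) = V ^ 2 * (L * (V ^ 2) ^ 6 * R ^ 2) := by ring
        _ ≤ K * ((G * G) ^ 2 * G * (N * L * T * N)) *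
            ((2 * V) ^ 2 * (N * N * L) + N * T + (N ^ 3 * (2 * V) ^ 2 * T) ^ (1 / 2 : ℝ) +
              (2 * V) ^ 2 * N * T / (N * L)) := h
        _ ≤ K * ((G * G) ^ 2 * G * (N * L * T * N)) * (14 * N * (V ^ 2 * u ^ 2 + u ^ 4)) := by
            gcongr
        _ = L * (14 * K * (G ^ 5 * N ^ 3 * u ^ 4 * (V ^ 2 * u ^ 2 + u ^ 4))) := by
            rw [← hu4]
            ring
    have h2 : V ^ 14 * R ^ 2 ≤ 14 * K * (G ^ 5 * N ^ 3 * u ^ 4 * (V ^ 2 * u ^ 2 + u ^ 4)) :=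
      le_of_mul_le_mul_left h1 hL
    set A := u ^ 3 * g ^ 5 * n ^ 3 / V ^ 6 with hA
    set B := u ^ 4 * g ^ 5 * n ^ 3 / V ^ 7 with hB
    set C := u ^ 2 * G ^ 2 * N / V ^ 4 with hC
    have h3 : R ^ 2 ≤ 14 * K * (A ^ 2 + B ^ 2) := by
      have h4 : V ^ 14 * (A ^ 2 + B ^ 2) = G ^ 5 * N ^ 3 * u ^ 4 * (V ^ 2 * u ^ 2 + u ^ 4) := by
        rw [hA, hB, ← hg2, ← hn2]
        field_simp
      have h5 : V ^ 14 * R ^ 2 ≤ V ^ 14 * (14 * K * (A ^ 2 + B ^ 2)) := by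
        calc V ^ 14 * R ^ 2 ≤ 14 * K * (G ^ 5 * N ^ 3 * u ^ 4 * (V ^ 2 * u ^ 2 + u ^ 4)) := h2
          _ = 14 * K * (V ^ 14 * (A ^ 2 + B ^ 2)) := by rw [h4]
          _ = V ^ 14 * (14 * K * (A ^ 2 + B ^ 2)) := by ring
      exact le_of_mul_le_mul_left h5 (by positivity)
    have h4 : R ^ 2 ≤ (14 * K * (A + B + C)) ^ 2 := by
      refine h3.trans ?_
      have h5 : A ^ 2 + B ^ 2 ≤ (A + B + C) ^ 2 := by
        nlinarith [mul_nonneg hA0 hB0, mul_nonneg hA0 hC0, mul_nonneg hB0 hC0]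
      have h6 : 14 * K ≤ (14 * K) ^ 2 := by nlinarith
      calc 14 * K * (A ^ 2 + B ^ 2) ≤ (14 * K) ^ 2 * (A + B + C) ^ 2 := by gcongr
        _ = (14 * K * (A + B + C)) ^ 2 := by ring
    have h5 : R ≤ 14 * K * (A + B + C) :=
      (pow_le_pow_iff_left₀ hR (by positivity) two_ne_zero).mp h4
    rw [← hu4]
    exact h5

theorem LVS_bG (N : ℕ) (a : ℕ → ℂ) :
    ∑ n ∈ Finset.Ioc N (4 * N), ‖(if n ≤ 2 * N then a n else 0 : ℂ)‖ ^ 2 =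
      ∑ n ∈ Finset.Ioc N (2 * N), ‖a n‖ ^ 2 := by
  have hsub : Finset.Ioc N (2 * N) ⊆ Finset.Ioc N (4 * N) := by
    intro n hn
    rw [Finset.mem_Ioc] at hn ⊢
    omega
  rw [← Finset.sum_subset hsub]
  · refine Finset.sum_congr rfl fun n hn => ?_
    rw [Finset.mem_Ioc] at hn
    rw [if_pos hn.2]
  · intro n hn hn'
    rw [Finset.mem_Ioc] at hn hn'
    have : ¬ n ≤ 2 * N := fun h => hn' ⟨hn.1, h⟩
    rw [if_neg this, norm_zero]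
    norm_num

/-- The theorem for `T ^ δ`-separated sets in `[T, 2T]`. -/
theorem LVS_sep (ε : ℝ) (hε : 0 < ε) : ∃ δ₀ : ℝ, 0 < δ₀ ∧ ∀ δ : ℝ, 0 < δ → δ ≤ δ₀ →
    ∃ C T₀ : ℝ, 0 < C ∧ ∀ T : ℝ, T₀ ≤ T → ∀ W : Finset ℝ, Sep δ T W → ∀ (N : ℕ) (a : ℕ → ℂ) (V G : ℝ),
    1 ≤ N → (N : ℝ) ≤ T ^ (1 / 2 : ℝ) → 0 < V →
    (∀ n ∈ Finset.Ioc N (2 * N), ‖a n‖ ≤ 1) → G = ∑ n ∈ Finset.Ioc N (2 * N), ‖a n‖ ^ 2 →
    (∀ t ∈ W, V ≤ ‖DP N a t‖) → (W.card : ℝ) ≤ C * T ^ ε * LVSB T N G V := by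
  refine ⟨min (ε / 24) (1 / 10), lt_min (by linarith) (by norm_num), ?_⟩
  intro δ hδ hδ0
  have hδ1 : δ ≤ ε / 24 := hδ0.trans (min_le_left _ _)
  have hδ2 : δ ≤ 1 / 10 := hδ0.trans (min_le_right _ _)
  obtain ⟨C, T₀, hC, hGLV⟩ := LVS_GLV Pool.Agent.ZD.z_bph n_mqi n_exa (ε / 4) δ (by linarith) hδ hδ2
  refine ⟨28 * max 1 C, max T₀ 1, ?_, ?_⟩
  · have : 0 < max 1 C := lt_max_of_lt_left one_pos
    positivity
  intro T hT W hW N a V G hN hNT hV0 ha hG hlo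
  have hT1 : 1 ≤ T := le_trans (le_max_right _ _) hT
  have hTT0 : T₀ ≤ T := le_trans (le_max_left _ _) hT
  have hT0 : 0 < T := by linarith
  have hN1 : (1 : ℝ) ≤ N := by exact_mod_cast hN
  have hG0 : 0 ≤ G := by
    rw [hG]
    exact Finset.sum_nonneg fun n _ => by positivity
  have hmaxC : 0 ≤ max 1 C := le_trans zero_le_one (le_max_left _ _)
  have hTe : 1 ≤ T ^ ε := Real.one_le_rpow hT1 hε.le
  have hB0 := LVSB_nonneg T N G V hT0.le (by linarith) hG0 hV0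
  -- one level
  have hlevel : ∀ (V' : ℝ), 0 < V' → ∀ W' : Finset ℝ, W' ⊆ W → (∀ t ∈ W', V' ≤ ‖DP N a t‖) →
      (∀ t ∈ W', ‖DP N a t‖ ≤ 2 * V') → (W'.card : ℝ) ≤ 14 * (max 1 C * T ^ ε) * LVSB T N G V' := by
    intro V' hV' W' hWW hlo' hhi'
    set x : ℝ := T ^ (1 / 2 : ℝ) / N with hx
    have hx1 : 1 ≤ x := by
      rw [hx, le_div_iff₀ (by linarith)]
      linarith
    set L : ℕ := ⌈x⌉₊ with hL
    have hL1 : 1 ≤ L := by
      rw [hL]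
      exact Nat.one_le_ceil_iff.mpr (by linarith)
    have hLx : x ≤ L := Nat.le_ceil x
    have hLx2 : (L : ℝ) ≤ 2 * x := by
      have := Nat.ceil_lt_add_one (a := x) (by linarith)
      have h3 : (L : ℝ) < x + 1 := this
      linarith
    have hNx : (N : ℝ) * x = T ^ (1 / 2 : ℝ) := by
      rw [hx]
      field_simp
    have hTT : T ^ (1 / 2 : ℝ) * T ^ (1 / 2 : ℝ) = T := by
      rw [← Real.rpow_add hT0]
      norm_num
    set b : ℕ → ℂ := fun n => if n ≤ 2 * N then a n else 0 with hb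
    have hbn : ∀ n ∈ Finset.Ioc N (4 * N), ‖b n‖ ≤ 1 := by
      intro n hn
      rw [Finset.mem_Ioc] at hn
      simp only [hb]
      by_cases h : n ≤ 2 * N
      · rw [if_pos h]
        exact ha n (Finset.mem_Ioc.mpr ⟨hn.1, h⟩)
      · rw [if_neg h, norm_zero]
        exact zero_le_one
    have hbG : G = ∑ n ∈ Finset.Ioc N (4 * N), ‖b n‖ ^ 2 := by
      rw [hG]
      exact (LVS_bG N a).symm
    have hPP : ∀ t, PP N b t = DP N a t := fun t => LVD_pp N a t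
    have hNL : T ^ (1 / 4 : ℝ) ≤ (N : ℝ) * L := by
      calc T ^ (1 / 4 : ℝ) ≤ T ^ (1 / 2 : ℝ) := Real.rpow_le_rpow_of_exponent_le hT1 (by norm_num)
        _ = N * x := hNx.symm
        _ ≤ N * L := by gcongr
    have hThalf : 0 ≤ T ^ (1 / 2 : ℝ) := Real.rpow_nonneg hT0.le _
    have hNNL : (N : ℝ) * N * L ≤ 2 * T := by
      calc (N : ℝ) * N * L ≤ N * N * (2 * x) := by gcongr
        _ = 2 * N * (N * x) := by ring
        _ = 2 * N * T ^ (1 / 2 : ℝ) := by rw [hNx]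
        _ ≤ 2 * T ^ (1 / 2 : ℝ) * T ^ (1 / 2 : ℝ) := by gcongr
        _ = 2 * T := by rw [mul_assoc, hTT]
    have hsep : Sep δ T W' := ⟨fun t ht => hW.1 t (hWW ht), fun t ht t' ht' hne =>
      hW.2 t (hWW ht) t' (hWW ht') hne⟩
    have key := hGLV T hTT0 W' hsep N N N L b b b (2 * V') (V' ^ 2) V' G G hN hN hN hL1 hNL
      (Nat.le_mul_of_pos_right N hL1) hNNL hbn hbn hbG hbG (by positivity) (by positivity) hV'.le
      (by
        intro t ht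
        rw [hPP]
        have h5 := hlo' t ht
        refine ⟨hhi' t ht, ?_, h5⟩
        rw [norm_mul, pow_two]
        exact mul_le_mul h5 h5 hV'.le (norm_nonneg _))
    refine LVS_real (W'.card) V' (max 1 C * T ^ ε) G N L T (Nat.cast_nonneg _)
      (one_le_mul_of_one_le_of_one_le (le_max_left _ _) hTe) hG0 hN1 hT1 hNT hV' hLx hLx2 ?_
    have hK1 : C * T ^ (ε / 4) ≤ max 1 C * T ^ ε := by
      refine mul_le_mul (le_max_right _ _) ?_ (by positivity) hmaxC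
      exact Real.rpow_le_rpow_of_exponent_le hT1 (by linarith)
    have hK2 : C * T ^ (ε / 4 + 6 * δ) ≤ max 1 C * T ^ ε := by
      refine mul_le_mul (le_max_right _ _) ?_ (by positivity) hmaxC
      exact Real.rpow_le_rpow_of_exponent_le hT1 (by linarith)
    rcases key with h | h
    · left
      refine h.trans ?_
      gcongr
    · right
      refine h.trans ?_
      gcongr
  -- all levels
  set J : ℕ := ⌊(N : ℝ) / V⌋₊ with hJ
  set Wj : ℕ → Finset ℝ := fun j => W.filter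
    (fun t => 2 ^ j * V ≤ ‖DP N a t‖ ∧ ‖DP N a t‖ ≤ 2 * (2 ^ j * V)) with hWj
  have hcover : W ⊆ (Finset.range (J + 1)).biUnion Wj := by
    intro t ht
    have h3 := hlo t ht
    have h4 : 1 ≤ ‖DP N a t‖ / V := by rwa [one_le_div₀ hV0]
    obtain ⟨j, hj1, hj2⟩ := exists_nat_pow_near h4 (one_lt_two (α := ℝ))
    have hj3 : (j : ℝ) ≤ (N : ℝ) / V := by
      have h5 : (j : ℝ) ≤ 2 ^ j := by exact_mod_cast Nat.lt_two_pow_self.le
      refine h5.trans (hj1.trans ?_)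
      exact div_le_div_of_nonneg_right (LVD_norm N a t ha) hV0.le
    rw [le_div_iff₀ hV0] at hj1
    rw [div_lt_iff₀ hV0] at hj2
    rw [Finset.mem_biUnion]
    refine ⟨j, ?_, ?_⟩
    · rw [Finset.mem_range]
      have : j ≤ J := Nat.le_floor hj3
      omega
    · simp only [hWj, Finset.mem_filter]
      refine ⟨ht, hj1, ?_⟩
      rw [pow_succ] at hj2
      linarith
  have hlev : ∀ j, ((Wj j).card : ℝ) ≤ 14 * (max 1 C * T ^ ε) * LVSB T N G V * (1 / 2) ^ j := by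
    intro j
    have h3 := hlevel (2 ^ j * V) (by positivity) (Wj j) (Finset.filter_subset _ _)
      (fun t ht => (Finset.mem_filter.mp ht).2.1) (fun t ht => (Finset.mem_filter.mp ht).2.2)
    have h4 := LVSB_level T N G V hT0.le (by linarith) hG0 hV0 j
    calc ((Wj j).card : ℝ) ≤ 14 * (max 1 C * T ^ ε) * LVSB T N G (2 ^ j * V) := h3
      _ ≤ 14 * (max 1 C * T ^ ε) * (LVSB T N G V * (1 / 2) ^ j) :=
          mul_le_mul_of_nonneg_left h4 (by positivity)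
      _ = 14 * (max 1 C * T ^ ε) * LVSB T N G V * (1 / 2) ^ j := by ring
  have h3 : W.card ≤ ∑ j ∈ Finset.range (J + 1), (Wj j).card :=
    (Finset.card_le_card hcover).trans Finset.card_biUnion_le
  calc (W.card : ℝ) ≤ ((∑ j ∈ Finset.range (J + 1), (Wj j).card : ℕ) : ℝ) := by exact_mod_cast h3
    _ = ∑ j ∈ Finset.range (J + 1), ((Wj j).card : ℝ) := by push_cast; rfl
    _ ≤ ∑ j ∈ Finset.range (J + 1), 14 * (max 1 C * T ^ ε) * LVSB T N G V * (1 / 2) ^ j :=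
        Finset.sum_le_sum fun j _ => hlev j
    _ = 14 * (max 1 C * T ^ ε) * LVSB T N G V * ∑ j ∈ Finset.range (J + 1), (1 / 2 : ℝ) ^ j := by
        rw [Finset.mul_sum]
    _ ≤ 14 * (max 1 C * T ^ ε) * LVSB T N G V * 2 :=
        mul_le_mul_of_nonneg_left (sum_geometric_two_le _) (by positivity)
    _ = 28 * max 1 C * T ^ ε * LVSB T N G V := by ring

end Pool.Agent.NF
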